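import Pool.Agent.H39.TO.Targets

/-!
# Row AEA of the board `toh_modules`: incidences, class `{1, 2}`
-/

set_option autoImplicit false

namespace Pool.Agent.H5.TOH

open Pool.Agent.H57.CP Pool.Agent.H39.TO

section

variable {v v' : H3} {a b c : Equiv.Perm H3}

theorem ab_le : Subgroup.closure {a, b} ≤ G3 a b c := by
  unfold G3
  refine Subgroup.closure_mono ?_
  intro x hx
  rcases hx with rfl | rfl
  · exact Or.inl rfl
  · exact Or.inr (Or.inl rfl)

theorem ac_le : Subgroup.closure {a, c} ≤ G3 a b c := by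
  unfold G3
  refine Subgroup.closure_mono ?_
  intro x hx
  rcases hx with rfl | rfl
  · exact Or.inl rfl
  · exact Or.inr (Or.inr rfl)

theorem bc_le : Subgroup.closure {b, c} ≤ G3 a b c := by
  unfold G3
  refine Subgroup.closure_mono ?_
  intro x hx
  rcases hx with rfl | rfl
  · exact Or.inr (Or.inl rfl)
  · exact Or.inr (Or.inr rfl)

theorem aG : a ∈ G3 a b c := Subgroup.subset_closure (Or.inl rfl)
theorem bG : b ∈ G3 a b c := Subgroup.subset_closure (Or.inr (Or.inl rfl))
theorem cG : c ∈ G3 a b c := Subgroup.subset_closure (Or.inr (Or.inr rfl))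

theorem ne_of (h : AStr v v' a b c) : v ≠ v' := h.ne 1 (one_mem _)

theorem ne_inv (h : AStr v v' a b c) {g : Equiv.Perm H3} (hg : g ∈ G3 a b c) : g v' ≠ v := by
  intro h1
  have h2 : g⁻¹ v = v' := by
    rw [← h1]
    exact g.symm_apply_apply v'
  exact h.ne _ (inv_mem hg) h2

theorem fixed (h : AStr v v' a b c) {g : Equiv.Perm H3} (hg : g ∈ G3 a b c) (h1 : g v = v)
    (h2 : g v' = v') : g = 1 ∨ g = c :=
  h.ic1 g (h.st g hg h1) (h.st' g hg h2)

theorem stab (h : AStr v v' a b c) {g : Equiv.Perm H3} (hg : g ∈ G3 a b c)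
    (h1 : g '' {v, v'} = {v, v'}) : g = 1 ∨ g = c := by
  have h2 : g v ∈ ({v, v'} : Set H3) := by
    rw [← h1]
    exact ⟨v, Or.inl rfl, rfl⟩
  have h3 : g v' ∈ ({v, v'} : Set H3) := by
    rw [← h1]
    exact ⟨v', Or.inr rfl, rfl⟩
  rcases h2 with h2 | h2
  · rcases h3 with h3 | h3
    · exact absurd h3 (ne_inv h hg)
    · exact fixed h hg h2 h3
  · exact absurd h2 (h.ne g hg)

theorem img_pair (g : Equiv.Perm H3) (x y : H3) : g '' {x, y} = {g x, g y} :=
  Set.image_pair g x y

theorem fc_v (h : AStr v v' a b c) :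
    {e | e ∈ fc a b {v, v'} ∧ v ∈ e} = {{v, v'}, {v, a v'}} := by
  ext e
  constructor
  · rintro ⟨⟨g, hg, rfl⟩, hv⟩
    rw [img_pair] at hv ⊢
    rcases hv with hv | hv
    · rcases h.ia1 g hg (h.st g (ab_le hg) hv.symm) with rfl | rfl
      · exact Or.inl rfl
      · right
        show ({g v, g v'} : Set H3) = {v, g v'}
        rw [h.av]
    · exact absurd (Eq.symm hv) (ne_inv h (ab_le hg))
  · rintro (rfl | rfl)
    · refine ⟨⟨1, one_mem _, ?_⟩, Or.inl rfl⟩
      rw [img_pair]
      rfl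
    · refine ⟨⟨a, Subgroup.subset_closure (Or.inl rfl), ?_⟩, Or.inl rfl⟩
      rw [img_pair, h.av]

theorem fc_v' (h : AStr v v' a b c) :
    {e | e ∈ fc a b {v, v'} ∧ v' ∈ e} = {{v, v'}, {b v, v'}} := by
  ext e
  constructor
  · rintro ⟨⟨g, hg, rfl⟩, hv⟩
    rw [img_pair] at hv ⊢
    rcases hv with hv | hv
    · exact absurd (Eq.symm hv) (h.ne g (ab_le hg))
    · rcases h.ib1 g hg (h.st' g (ab_le hg) (Eq.symm hv)) with rfl | rfl
      · exact Or.inl rfl
      · right
        show ({g v, g v'} : Set H3) = {g v, v'}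
        rw [h.bv']
  · rintro (rfl | rfl)
    · refine ⟨⟨1, one_mem _, ?_⟩, Or.inr rfl⟩
      rw [img_pair]
      rfl
    · refine ⟨⟨b, Subgroup.subset_closure (Or.inr rfl), ?_⟩, Or.inr rfl⟩
      rw [img_pair, h.bv']

theorem av'_ne (h : AStr v v' a b c) : a v' ≠ v' := by
  intro h1
  rcases h.ib1 a (Subgroup.subset_closure (Or.inl rfl)) (h.st' a aG h1) with h2 | h2
  · exact h.a1 h2
  · exact h.ab h2

theorem bv_ne (h : AStr v v' a b c) : b v ≠ v := by
  intro h1
  rcases h.ia1 b (Subgroup.subset_closure (Or.inr rfl)) (h.st b bG h1) with h2 | h2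
  · exact h.b1 h2
  · exact h.ab h2.symm

/-- the second element of a pair -/
theorem pair_right {x y z : H3} (h : ({x, y} : Set H3) = {x, z}) (hy : y ≠ x) : y = z := by
  have h1 : y ∈ ({x, z} : Set H3) := by
    rw [← h]
    exact Or.inr rfl
  rcases h1 with h1 | h1
  · exact absurd h1 hy
  · exact h1

theorem pair_left {x y z : H3} (h : ({y, x} : Set H3) = {z, x}) (hy : y ≠ x) : y = z := by
  have h1 : y ∈ ({z, x} : Set H3) := by
    rw [← h]
    exact Or.inl rfl
  rcases h1 with h1 | h1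
  · exact h1
  · exact absurd h1 hy

theorem sq_ac (h : AStr v v' a b c) (h1 : a v' = c (a v')) : (a * c) ^ 2 = 1 := by
  have hG : a * c * a ∈ G3 a b c := mul_mem (mul_mem aG cG) aG
  have e1 : (a * c * a) v = v := by
    show a (c (a v)) = v
    rw [h.av, h.cv, h.av]
  have e2 : (a * c * a) v' = v' := by
    show a (c (a v')) = v'
    rw [← h1]
    show (a * a) v' = v'
    rw [h.aa]
    rfl
  rcases fixed h hG e1 e2 with h3 | h3
  · exfalso
    apply h.c1
    calc c = (a * a) * c * (a * a) := by rw [h.aa]; group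
      _ = a * (a * c * a) * a := by group
      _ = 1 := by rw [h3, mul_one, h.aa]
  · calc (a * c) ^ 2 = (a * c * a) * c := by rw [pow_two]; group
      _ = 1 := by rw [h3, h.cc]

theorem sq_bc (h : AStr v v' a b c) (h1 : b v = c (b v)) : (b * c) ^ 2 = 1 := by
  have hG : b * c * b ∈ G3 a b c := mul_mem (mul_mem bG cG) bG
  have e1 : (b * c * b) v' = v' := by
    show b (c (b v')) = v'
    rw [h.bv', h.cv', h.bv']
  have e2 : (b * c * b) v = v := by
    show b (c (b v)) = v
    rw [← h1]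
    show (b * b) v = v
    rw [h.bb]
    rfl
  rcases fixed h hG e2 e1 with h3 | h3
  · exfalso
    apply h.c1
    calc c = (b * b) * c * (b * b) := by rw [h.bb]; group
      _ = b * (b * c * b) * b := by group
      _ = 1 := by rw [h3, mul_one, h.bb]
  · calc (b * c) ^ 2 = (b * c * b) * c := by rw [pow_two]; group
      _ = 1 := by rw [h3, h.cc]

theorem fc_ne (h : AStr v v' a b c) :
    fc a b {v, v'} ≠ (Set.image c) '' fc a b {v, v'} := by
  intro heq
  have h1 : a v' = c (a v') := by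
    have hm : ({v, a v'} : Set H3) ∈ (Set.image c) '' fc a b {v, v'} := by
      rw [← heq]
      have : ({v, a v'} : Set H3) ∈ {e | e ∈ fc a b {v, v'} ∧ v ∈ e} := by
        rw [fc_v h]
        exact Or.inr rfl
      exact this.1
    obtain ⟨x, hx, hxe⟩ := hm
    have hxe' : c '' x = {v, a v'} := hxe
    have hvx : v ∈ x := by
      have : v ∈ c '' x := by
        rw [hxe']
        exact Or.inl rfl
      obtain ⟨y, hy, hyv⟩ := this
      have : y = v := c.injective (hyv.trans h.cv.symm)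
      rw [← this]
      exact hy
    have hx2 : x ∈ {e | e ∈ fc a b {v, v'} ∧ v ∈ e} := ⟨hx, hvx⟩
    rw [fc_v h] at hx2
    rcases hx2 with rfl | hx2
    · rw [img_pair, h.cv, h.cv'] at hxe'
      exact absurd (pair_right hxe'.symm (ne_inv h aG)) (av'_ne h)
    · rw [Set.mem_singleton_iff] at hx2
      rw [hx2, img_pair, h.cv] at hxe'
      exact pair_right hxe'.symm (ne_inv h aG)
  have h2 : b v = c (b v) := by
    have hm : ({b v, v'} : Set H3) ∈ (Set.image c) '' fc a b {v, v'} := by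
      rw [← heq]
      have : ({b v, v'} : Set H3) ∈ {e | e ∈ fc a b {v, v'} ∧ v' ∈ e} := by
        rw [fc_v' h]
        exact Or.inr rfl
      exact this.1
    obtain ⟨x, hx, hxe⟩ := hm
    have hxe' : c '' x = {b v, v'} := hxe
    have hvx : v' ∈ x := by
      have : v' ∈ c '' x := by
        rw [hxe']
        exact Or.inr rfl
      obtain ⟨y, hy, hyv⟩ := this
      have : y = v' := c.injective (hyv.trans h.cv'.symm)
      rw [← this]
      exact hy
    have hx2 : x ∈ {e | e ∈ fc a b {v, v'} ∧ v' ∈ e} := ⟨hx, hvx⟩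
    rw [fc_v' h] at hx2
    rcases hx2 with rfl | hx2
    · rw [img_pair, h.cv, h.cv'] at hxe'
      exact absurd (pair_left hxe'.symm (h.ne b bG)) (bv_ne h)
    · rw [Set.mem_singleton_iff] at hx2
      rw [hx2, img_pair, h.cv'] at hxe'
      exact pair_left hxe'.symm (h.ne b bG)
  rcases h.q3 with h3 | h3
  · exact h3 (sq_ac h h1)
  · exact h3 (sq_bc h h2)

theorem img_mul (g k : Equiv.Perm H3) (s : Set H3) : (g * k) '' s = g '' (k '' s) := by
  rw [← Set.image_comp]
  rfl

theorem fc_inv {k : Equiv.Perm H3} (hk : k ∈ Subgroup.closure {a, b}) (e : Set H3) :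
    (Set.image k) '' fc a b e = fc a b e := by
  ext x
  constructor
  · rintro ⟨y, ⟨g, hg, rfl⟩, rfl⟩
    exact ⟨k * g, mul_mem hk hg, (img_mul k g e).symm⟩
  · rintro ⟨g, hg, rfl⟩
    refine ⟨(k⁻¹ * g) '' e, ⟨k⁻¹ * g, mul_mem (inv_mem hk) hg, rfl⟩, ?_⟩
    show k '' ((k⁻¹ * g) '' e) = g '' e
    rw [← img_mul, mul_inv_cancel_left]

theorem pf_AEA : T_AEA := by
  intro v v' a b c h
  refine ⟨ne_of h, fun g hg hge => stab h hg hge, fc_v h, fc_v' h, av'_ne h, bv_ne h, fc_ne h, ?_⟩
  rintro g hg ⟨x, ⟨k, hk, rfl⟩, hx⟩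
  have hx' : g '' (k '' {v, v'}) = {v, v'} := hx
  rw [← img_mul] at hx'
  rcases stab h (mul_mem hg (ab_le hk)) hx' with h1 | h1
  · left
    have : g = k⁻¹ := eq_inv_of_mul_eq_one_left h1
    rw [this]
    exact fc_inv (inv_mem hk) _
  · right
    have h2 : g = c * k⁻¹ := by rw [← h1, mul_inv_cancel_right]
    have h3 : (Set.image g) '' fc a b {v, v'} =
        (Set.image c) '' ((Set.image (k⁻¹ : Equiv.Perm H3)) '' fc a b {v, v'}) := by
      rw [← Set.image_comp]
      refine Set.image_congr fun y _ => ?_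
      show g '' y = c '' ((k⁻¹ : Equiv.Perm H3) '' y)
      rw [h2, img_mul]
    rw [h3, fc_inv (inv_mem hk)]

end

end Pool.Agent.H5.TOH
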