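import Pool.Agent.H5.TOH.AEA

/-!
# Rows AEB, AEC, AED of the board `toh_modules`
-/

set_option autoImplicit false

namespace Pool.Agent.H5.TOH

open Pool.Agent.H57.CP Pool.Agent.H39.TO Relation

theorem iso_one : IsIso 1 := fun _ _ => rfl

theorem iso_mul {g h : Equiv.Perm H3} (hg : IsIso g) (hh : IsIso h) : IsIso (g * h) := by
  intro x y
  rw [Equiv.Perm.mul_apply, Equiv.Perm.mul_apply, hg, hh]

theorem iso_inv {g : Equiv.Perm H3} (hg : IsIso g) : IsIso g⁻¹ := by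
  intro x y
  rw [← hg (g⁻¹ x) (g⁻¹ y)]
  simp

theorem iso_closure {s : Set (Equiv.Perm H3)} (hs : ∀ x ∈ s, IsIso x) {g : Equiv.Perm H3}
    (hg : g ∈ Subgroup.closure s) : IsIso g := by
  induction hg using Subgroup.closure_induction with
  | mem x hx => exact hs x hx
  | one => exact iso_one
  | mul x y _ _ hx hy => exact iso_mul hx hy
  | inv x _ hx => exact iso_inv hx

theorem img2_img2 (g h : Equiv.Perm H3) (f : Set (Set H3)) :
    (Set.image g) '' ((Set.image h) '' f) = (Set.image (g * h : Equiv.Perm H3)) '' f := by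
  rw [← Set.image_comp]
  refine Set.image_congr fun y _ => ?_
  show g '' (h '' y) = _
  rw [img_mul]

theorem img1_inj (g : Equiv.Perm H3) : Function.Injective (Set.image g) :=
  Set.image_injective.mpr g.injective

theorem img2_inj (g : Equiv.Perm H3) :
    Function.Injective (fun f : Set (Set H3) => (Set.image g) '' f) :=
  Set.image_injective.mpr (img1_inj g)

theorem mem_img2 (g : Equiv.Perm H3) (e : Set H3) (f : Set (Set H3)) :
    g '' e ∈ (Set.image g) '' f ↔ e ∈ f :=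
  (img1_inj g).mem_set_image

theorem img2_one (f : Set (Set H3)) : (Set.image (1 : Equiv.Perm H3)) '' f = f := by
  have : (Set.image (1 : Equiv.Perm H3)) = (id : Set H3 → Set H3) := by
    funext e
    simp
  rw [this, Set.image_id]

/-- walks in a group -/
theorem walk {α : Type*} (R : α → α → Prop) (F : Equiv.Perm H3 → α) (s : Set (Equiv.Perm H3))
    (D : Subgroup (Equiv.Perm H3)) (hD : Subgroup.closure s ≤ D)
    (hb : ∀ k ∈ D, ∀ x ∈ s, ReflTransGen R (F k) (F (k * x)) ∧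
      ReflTransGen R (F (k * x)) (F k)) :
    ∀ x ∈ Subgroup.closure s, ∀ k ∈ D, ReflTransGen R (F k) (F (k * x)) ∧
      ReflTransGen R (F (k * x)) (F k) := by
  intro x hx
  induction hx using Subgroup.closure_induction with
  | mem x hx => exact fun k hk => hb k hk x hx
  | one =>
    intro k _
    rw [mul_one]
    exact ⟨ReflTransGen.refl, ReflTransGen.refl⟩
  | mul x y hx _ ihx ihy =>
    intro k hk
    have h1 := ihx k hk
    have h2 := ihy (k * x) (mul_mem hk (hD hx))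
    rw [← mul_assoc]
    exact ⟨h1.1.trans h2.1, h2.2.trans h1.2⟩
  | inv x hx ih =>
    intro k hk
    have h1 := ih (k * x⁻¹) (mul_mem hk (inv_mem (hD hx)))
    rw [inv_mul_cancel_right] at h1
    exact ⟨h1.2, h1.1⟩

section

variable {v v' : H3} {a b c : Equiv.Perm H3}

theorem fmem {k : Equiv.Perm H3} (hk : k ∈ Subgroup.closure {a, b}) (e : Set H3) :
    k '' e ∈ fc a b e := ⟨k, hk, rfl⟩

theorem base_fc (e : Set H3) : e ∈ fc a b e := ⟨1, one_mem _, by simp⟩

theorem a_img (h : AStr v v' a b c) : a '' {v, v'} = {v, a v'} := by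
  rw [img_pair, h.av]

theorem b_img (h : AStr v v' a b c) : b '' {v, v'} = {b v, v'} := by
  rw [img_pair, h.bv']

theorem c_img (h : AStr v v' a b c) : c '' {v, v'} = {v, v'} := by
  rw [img_pair, h.cv, h.cv']

theorem k_img (g : Equiv.Perm H3) {k : Equiv.Perm H3} (hk : k ∈ Subgroup.closure {a, b})
    (e : Set H3) : (Set.image (g * k : Equiv.Perm H3)) '' fc a b e =
      (Set.image g) '' fc a b e := by
  rw [← img2_img2, fc_inv hk]

theorem iso_G (h : AStr v v' a b c) {g : Equiv.Perm H3} (hg : g ∈ G3 a b c) : IsIso g := by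
  refine iso_closure ?_ hg
  rintro x (rfl | rfl | rfl)
  · exact h.ia
  · exact h.ib
  · exact h.ic

theorem at_v (h : AStr v v' a b c) (g : Equiv.Perm H3) :
    {e' | e' ∈ (Set.image g) '' fc a b {v, v'} ∧ g v ∈ e'}.ncard = 2 := by
  have h3 : {e' | e' ∈ (Set.image g) '' fc a b {v, v'} ∧ g v ∈ e'} =
      (Set.image g) '' {e | e ∈ fc a b {v, v'} ∧ v ∈ e} := by
    ext e'
    constructor
    · rintro ⟨⟨e1, he1, rfl⟩, hmem⟩
      exact ⟨e1, ⟨he1, (g.injective.mem_set_image).1 hmem⟩, rfl⟩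
    · rintro ⟨e1, ⟨he1, hv⟩, rfl⟩
      exact ⟨⟨e1, he1, rfl⟩, v, hv, rfl⟩
  rw [h3, Set.ncard_image_of_injective _ (img1_inj g), fc_v h, Set.ncard_pair]
  intro h4
  exact av'_ne h (pair_right h4.symm (ne_inv h aG))

theorem at_v' (h : AStr v v' a b c) (g : Equiv.Perm H3) :
    {e' | e' ∈ (Set.image g) '' fc a b {v, v'} ∧ g v' ∈ e'}.ncard = 2 := by
  have h3 : {e' | e' ∈ (Set.image g) '' fc a b {v, v'} ∧ g v' ∈ e'} =
      (Set.image g) '' {e | e ∈ fc a b {v, v'} ∧ v' ∈ e} := by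
    ext e'
    constructor
    · rintro ⟨⟨e1, he1, rfl⟩, hmem⟩
      exact ⟨e1, ⟨he1, (g.injective.mem_set_image).1 hmem⟩, rfl⟩
    · rintro ⟨e1, ⟨he1, hv⟩, rfl⟩
      exact ⟨⟨e1, he1, rfl⟩, v', hv, rfl⟩
  rw [h3, Set.ncard_image_of_injective _ (img1_inj g), fc_v' h, Set.ncard_pair]
  intro h4
  exact bv_ne h (pair_left h4.symm (h.ne b bG))

/-- an edge at a vertex of the first kind -/
theorem edge_v (h : AStr v v' a b c) {g k : Equiv.Perm H3} (hg : g ∈ G3 a b c)
    (hk : k ∈ G3 a b c) (hx : g v ∈ k '' {v, v'}) :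
    ∃ w ∈ Subgroup.closure {a, c}, k = g * w := by
  rw [img_pair] at hx
  refine ⟨g⁻¹ * k, ?_, by rw [mul_inv_cancel_left]⟩
  rcases hx with hx | hx
  · refine h.st _ (mul_mem (inv_mem hg) hk) ?_
    show g⁻¹ (k v) = v
    rw [← hx]
    exact g.symm_apply_apply v
  · exfalso
    refine ne_inv h (mul_mem (inv_mem hg) hk) ?_
    show g⁻¹ (k v') = v
    rw [← (show g v = k v' from hx)]
    exact g.symm_apply_apply v

/-- an edge at a vertex of the second kind -/
theorem edge_v' (h : AStr v v' a b c) {g k : Equiv.Perm H3} (hg : g ∈ G3 a b c)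
    (hk : k ∈ G3 a b c) (hx : g v' ∈ k '' {v, v'}) :
    ∃ w ∈ Subgroup.closure {b, c}, k = g * w := by
  rw [img_pair] at hx
  refine ⟨g⁻¹ * k, ?_, by rw [mul_inv_cancel_left]⟩
  rcases hx with hx | hx
  · exfalso
    refine h.ne _ (mul_mem (inv_mem hg) hk) ?_
    show g⁻¹ (k v) = v'
    rw [← hx]
    exact g.symm_apply_apply v'
  · refine h.st' _ (mul_mem (inv_mem hg) hk) ?_
    show g⁻¹ (k v') = v'
    rw [← (show g v' = k v' from hx)]
    exact g.symm_apply_apply v'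

theorem geo_ef (h : AStr v v' a b c) : ∀ e ∈ (KA v v' a b c).E,
    {f | f ∈ (KA v v' a b c).F ∧ e ∈ f}.ncard = 2 := by
  rintro e ⟨g, hg, rfl⟩
  have h3 : {f | f ∈ (KA v v' a b c).F ∧ g '' {v, v'} ∈ f} =
      (fun f : Set (Set H3) => (Set.image g) '' f) ''
        {fc a b {v, v'}, (Set.image c) '' fc a b {v, v'}} := by
    ext f
    constructor
    · rintro ⟨⟨k, hk, rfl⟩, hmem⟩
      have h4 : (Set.image k) '' fc a b {v, v'} =
          (Set.image g) '' ((Set.image (g⁻¹ * k : Equiv.Perm H3)) '' fc a b {v, v'}) := by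
        rw [img2_img2, mul_inv_cancel_left]
      rw [h4, mem_img2] at hmem
      refine ⟨_, ?_, h4.symm⟩
      exact (pf_AEA v v' a b c h).2.2.2.2.2.2.2 _ (mul_mem (inv_mem hg) hk) hmem
    · rintro ⟨f', hf', rfl⟩
      rcases hf' with rfl | hf'
      · exact ⟨⟨g, hg, rfl⟩, (mem_img2 g _ _).2 (base_fc _)⟩
      · rw [Set.mem_singleton_iff] at hf'
        subst hf'
        refine ⟨⟨g * c, mul_mem hg cG, img2_img2 _ _ _⟩, ?_⟩
        exact (mem_img2 g _ _).2 ⟨{v, v'}, base_fc _, c_img h⟩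
  rw [h3, Set.ncard_image_of_injective _ (img2_inj g), Set.ncard_pair (fc_ne h)]

theorem geo_vf (h : AStr v v' a b c) : ∀ f ∈ (KA v v' a b c).F, ∀ e ∈ f, ∀ x ∈ e,
    {e' | e' ∈ f ∧ x ∈ e'}.ncard = 2 := by
  rintro f ⟨g, hg, rfl⟩ e ⟨e1, ⟨k, hk, rfl⟩, rfl⟩ x hx
  have hx' : x ∈ (g * k) '' {v, v'} := by
    rw [img_mul]
    exact hx
  rw [img_pair] at hx'
  rw [← k_img g hk]
  rcases hx' with rfl | hx'
  · exact at_v h _
  · rw [Set.mem_singleton_iff] at hx'
    rw [hx']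
    exact at_v' h _

theorem geo_cf (h : AStr v v' a b c) : ∀ f ∈ (KA v v' a b c).F, ∀ e ∈ f, ∀ e' ∈ f,
    ReflTransGen (fun a b => b ∈ f ∧ (a ∩ b).Nonempty) e e' := by
  rintro f ⟨g, hg, rfl⟩ e ⟨e1, ⟨k, hk, rfl⟩, rfl⟩ e' ⟨e2, ⟨l, hl, rfl⟩, rfl⟩
  have hw := walk (fun s t : Set H3 => t ∈ (Set.image g) '' fc a b {v, v'} ∧ (s ∩ t).Nonempty)
    (fun k => g '' (k '' {v, v'})) {a, b} (Subgroup.closure {a, b}) le_rfl ?_ (k⁻¹ * l)
    (mul_mem (inv_mem hk) hl) k hk
  · have h1 := hw.1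
    rw [mul_inv_cancel_left] at h1
    exact h1
  intro m hm x hx
  have hx' : x ∈ Subgroup.closure ({a, b} : Set (Equiv.Perm H3)) := Subgroup.subset_closure hx
  have m1 : g '' (m '' {v, v'}) ∈ (Set.image g) '' fc a b {v, v'} := ⟨_, fmem hm _, rfl⟩
  have m2 : g '' ((m * x) '' {v, v'}) ∈ (Set.image g) '' fc a b {v, v'} :=
    ⟨_, fmem (mul_mem hm hx') _, rfl⟩
  have m3 : (g '' (m '' {v, v'}) ∩ g '' ((m * x) '' {v, v'})).Nonempty := by
    rcases hx with rfl | hx
    · refine ⟨g (m v), ⟨m v, ⟨v, Or.inl rfl, rfl⟩, rfl⟩, ⟨(m * x) v, ⟨v, Or.inl rfl, rfl⟩, ?_⟩⟩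
      show g (m (x v)) = g (m v)
      rw [h.av]
    · rw [Set.mem_singleton_iff] at hx
      subst hx
      refine ⟨g (m v'), ⟨m v', ⟨v', Or.inr rfl, rfl⟩, rfl⟩,
        ⟨(m * x) v', ⟨v', Or.inr rfl, rfl⟩, ?_⟩⟩
      show g (m (x v')) = g (m v')
      rw [h.bv']
  constructor
  · exact ReflTransGen.single ⟨m2, m3⟩
  · refine ReflTransGen.single ⟨m1, ?_⟩
    rw [Set.inter_comm]
    exact m3

theorem geo_cv (h : AStr v v' a b c) : ∀ x ∈ (KA v v' a b c).V, ∀ e ∈ (KA v v' a b c).E, x ∈ e →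
    ∀ e' ∈ (KA v v' a b c).E, x ∈ e' →
    ReflTransGen (fun s t => x ∈ t ∧ ∃ f ∈ (KA v v' a b c).F, s ∈ f ∧ t ∈ f) e e' := by
  rintro x ⟨g, hg, hx⟩ e ⟨k, hk, rfl⟩ hxe e' ⟨l, hl, rfl⟩ hxe'
  rcases hx with rfl | rfl
  · obtain ⟨w, hw, rfl⟩ := edge_v h hg hk hxe
    obtain ⟨w', hw', rfl⟩ := edge_v h hg hl hxe'
    have hq := walk (fun s t : Set H3 => g v ∈ t ∧ ∃ f ∈ (KA v v' a b c).F, s ∈ f ∧ t ∈ f)
      (fun k => (g * k) '' {v, v'}) {a, c} (Subgroup.closure {a, c}) le_rfl ?_ (w⁻¹ * w')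
      (mul_mem (inv_mem hw) hw') w hw
    · have h1 := hq.1
      rw [mul_inv_cancel_left] at h1
      exact h1
    intro m hm y hy
    have fixv : ∀ z ∈ Subgroup.closure ({a, c} : Set (Equiv.Perm H3)), z v = v := by
      intro z hz
      induction hz using Subgroup.closure_induction with
      | mem z hz =>
        rcases hz with rfl | rfl
        · exact h.av
        · exact h.cv
      | one => rfl
      | mul z z' _ _ h1 h2 =>
        show z (z' v) = v
        rw [h2, h1]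
      | inv z _ h1 =>
        show z.symm v = v
        rw [Equiv.symm_apply_eq, h1]
    have n1 : g v ∈ (g * m) '' {v, v'} := ⟨v, Or.inl rfl, by
      show g (m v) = g v
      rw [fixv m hm]⟩
    have hy' : y ∈ Subgroup.closure ({a, c} : Set (Equiv.Perm H3)) := Subgroup.subset_closure hy
    have n2 : g v ∈ (g * (m * y)) '' {v, v'} := ⟨v, Or.inl rfl, by
      show g ((m * y) v) = g v
      rw [fixv _ (mul_mem hm hy')]⟩
    rcases hy with rfl | hy
    · have f1 : (Set.image (g * m : Equiv.Perm H3)) '' fc y b {v, v'} ∈ (KA v v' y b c).F :=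
        ⟨g * m, mul_mem hg (ac_le hm), rfl⟩
      have f2 : (g * m) '' {v, v'} ∈ (Set.image (g * m : Equiv.Perm H3)) '' fc y b {v, v'} :=
        ⟨_, base_fc _, rfl⟩
      have f3 : (g * (m * y)) '' {v, v'} ∈
          (Set.image (g * m : Equiv.Perm H3)) '' fc y b {v, v'} :=
        ⟨y '' {v, v'}, fmem (Subgroup.subset_closure (Or.inl rfl)) _, by
          rw [← mul_assoc, img_mul (g * m) y]⟩
      exact ⟨ReflTransGen.single ⟨n2, _, f1, f2, f3⟩, ReflTransGen.single ⟨n1, _, f1, f3, f2⟩⟩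
    · rw [Set.mem_singleton_iff] at hy
      subst hy
      have e1 : (g * (m * y)) '' {v, v'} = (g * m) '' {v, v'} := by
        rw [← mul_assoc, img_mul (g * m) y, c_img h]
      show ReflTransGen _ ((g * m) '' {v, v'}) ((g * (m * y)) '' {v, v'}) ∧
        ReflTransGen _ ((g * (m * y)) '' {v, v'}) ((g * m) '' {v, v'})
      rw [e1]
      exact ⟨ReflTransGen.refl, ReflTransGen.refl⟩
  · obtain ⟨w, hw, rfl⟩ := edge_v' h hg hk hxe
    obtain ⟨w', hw', rfl⟩ := edge_v' h hg hl hxe'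
    have hq := walk (fun s t : Set H3 => g v' ∈ t ∧ ∃ f ∈ (KA v v' a b c).F, s ∈ f ∧ t ∈ f)
      (fun k => (g * k) '' {v, v'}) {b, c} (Subgroup.closure {b, c}) le_rfl ?_ (w⁻¹ * w')
      (mul_mem (inv_mem hw) hw') w hw
    · have h1 := hq.1
      rw [mul_inv_cancel_left] at h1
      exact h1
    intro m hm y hy
    have fixv : ∀ z ∈ Subgroup.closure ({b, c} : Set (Equiv.Perm H3)), z v' = v' := by
      intro z hz
      induction hz using Subgroup.closure_induction with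
      | mem z hz =>
        rcases hz with rfl | rfl
        · exact h.bv'
        · exact h.cv'
      | one => rfl
      | mul z z' _ _ h1 h2 =>
        show z (z' v') = v'
        rw [h2, h1]
      | inv z _ h1 =>
        show z.symm v' = v'
        rw [Equiv.symm_apply_eq, h1]
    have n1 : g v' ∈ (g * m) '' {v, v'} := ⟨v', Or.inr rfl, by
      show g (m v') = g v'
      rw [fixv m hm]⟩
    have hy' : y ∈ Subgroup.closure ({b, c} : Set (Equiv.Perm H3)) := Subgroup.subset_closure hy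
    have n2 : g v' ∈ (g * (m * y)) '' {v, v'} := ⟨v', Or.inr rfl, by
      show g ((m * y) v') = g v'
      rw [fixv _ (mul_mem hm hy')]⟩
    rcases hy with rfl | hy
    · have f1 : (Set.image (g * m : Equiv.Perm H3)) '' fc a y {v, v'} ∈ (KA v v' a y c).F :=
        ⟨g * m, mul_mem hg (bc_le hm), rfl⟩
      have f2 : (g * m) '' {v, v'} ∈ (Set.image (g * m : Equiv.Perm H3)) '' fc a y {v, v'} :=
        ⟨_, base_fc _, rfl⟩
      have f3 : (g * (m * y)) '' {v, v'} ∈
          (Set.image (g * m : Equiv.Perm H3)) '' fc a y {v, v'} :=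
        ⟨y '' {v, v'}, fmem (Subgroup.subset_closure (Or.inr rfl)) _, by
          rw [← mul_assoc, img_mul (g * m) y]⟩
      exact ⟨ReflTransGen.single ⟨n2, _, f1, f2, f3⟩, ReflTransGen.single ⟨n1, _, f1, f3, f2⟩⟩
    · rw [Set.mem_singleton_iff] at hy
      subst hy
      have e1 : (g * (m * y)) '' {v, v'} = (g * m) '' {v, v'} := by
        rw [← mul_assoc, img_mul (g * m) y, c_img h]
      show ReflTransGen _ ((g * m) '' {v, v'}) ((g * (m * y)) '' {v, v'}) ∧
        ReflTransGen _ ((g * (m * y)) '' {v, v'}) ((g * m) '' {v, v'})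
      rw [e1]
      exact ⟨ReflTransGen.refl, ReflTransGen.refl⟩

theorem geo_cc (h : AStr v v' a b c) : ∀ x ∈ (KA v v' a b c).V, ∀ y ∈ (KA v v' a b c).V,
    ReflTransGen (fun s t => ({s, t} : Set H3) ∈ (KA v v' a b c).E) x y := by
  have ed1 : ∀ g ∈ G3 a b c, ({g v, g v'} : Set H3) ∈ (KA v v' a b c).E :=
    fun g hg => ⟨g, hg, (img_pair g v v').symm⟩
  have ed2 : ∀ g ∈ G3 a b c, ({g v', g v} : Set H3) ∈ (KA v v' a b c).E :=
    fun g hg => by rw [Set.pair_comm]; exact ed1 g hg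
  have hq := walk (fun s t : H3 => ({s, t} : Set H3) ∈ (KA v v' a b c).E)
    (fun k => k v) {a, b, c} (G3 a b c) le_rfl ?_
  · have key : ∀ g ∈ G3 a b c, ∀ k ∈ G3 a b c,
        ReflTransGen (fun s t => ({s, t} : Set H3) ∈ (KA v v' a b c).E) (g v) (k v) := by
      intro g hg k hk
      have h1 := (hq (g⁻¹ * k) (mul_mem (inv_mem hg) hk) g hg).1
      rw [mul_inv_cancel_left] at h1
      exact h1
    rintro x ⟨g, hg, hx⟩ y ⟨k, hk, hy⟩
    rcases hx with rfl | rfl <;> rcases hy with rfl | rfl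
    · exact key g hg k hk
    · exact (key g hg k hk).tail (ed1 k hk)
    · exact ReflTransGen.head (ed2 g hg) (key g hg k hk)
    · exact ReflTransGen.head (ed2 g hg) ((key g hg k hk).tail (ed1 k hk))
  intro k hk x hx
  have hx' : x ∈ G3 a b c := Subgroup.subset_closure hx
  show ReflTransGen _ (k v) ((k * x) v) ∧ ReflTransGen _ ((k * x) v) (k v)
  rcases hx with rfl | rfl | hx
  · have : (k * x) v = k v := by
      show k (x v) = k v
      rw [h.av]
    rw [this]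
    exact ⟨ReflTransGen.refl, ReflTransGen.refl⟩
  · have e1 : (k * x) v' = k v' := by
      show k (x v') = k v'
      rw [h.bv']
    have p1 := ed1 k hk
    have p2 := ed2 k hk
    have p3 := ed1 _ (mul_mem hk hx')
    have p4 := ed2 _ (mul_mem hk hx')
    rw [e1] at p3 p4
    exact ⟨(ReflTransGen.single p1).tail p4, (ReflTransGen.single p3).tail p2⟩
  · rw [Set.mem_singleton_iff] at hx
    subst hx
    have : (k * x) v = k v := by
      show k (x v) = k v
      rw [h.cv]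
    rw [this]
    exact ⟨ReflTransGen.refl, ReflTransGen.refl⟩

theorem geo_dis (h : AStr v v' a b c) : ∀ x ∈ (KA v v' a b c).V, ∃ ε : ℝ, 0 < ε ∧
    ∀ y ∈ (KA v v' a b c).V, y ≠ x → 1 + ε ≤ ch x y := by
  obtain ⟨ε, hε, hd⟩ := h.di
  rintro x ⟨g, hg, hx⟩
  refine ⟨ε, hε, ?_⟩
  rintro y ⟨k, hk, hy⟩ hne
  have hm := mul_mem (inv_mem hg) hk
  have i1 : ∀ z w, ch (g z) (k w) = ch z ((g⁻¹ * k) w) := by
    intro z w
    rw [← iso_G h (inv_mem hg) (g z) (k w)]
    have e : g⁻¹ (g z) = z := g.symm_apply_apply z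
    rw [e, ← Equiv.Perm.mul_apply]
  have i2 : ∀ z w, ch (g z) (k w) = ch ((k⁻¹ * g) z) w := by
    intro z w
    rw [← iso_G h (inv_mem hk) (g z) (k w)]
    have e : k⁻¹ (k w) = w := k.symm_apply_apply w
    rw [e, ← Equiv.Perm.mul_apply]
  rcases hx with rfl | rfl <;> rcases hy with rfl | rfl
  · rw [i1]
    refine (hd _ hm).1 fun e => hne ?_
    have : g ((g⁻¹ * k) v) = g v := congrArg g e
    rwa [← Equiv.Perm.mul_apply, mul_inv_cancel_left] at this
  · rw [i1]
    exact (hd _ hm).2.2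
  · have sy : ∀ z w : H3, ch z w = ch w z := by
      intro z w
      simp only [ch, mk]
      ring
    rw [i2, sy]
    exact (hd _ (mul_mem (inv_mem hk) hg)).2.2
  · rw [i1]
    refine (hd _ hm).2.1 fun e => hne ?_
    have : g ((g⁻¹ * k) v') = g v' := congrArg g e
    rwa [← Equiv.Perm.mul_apply, mul_inv_cancel_left] at this

theorem pf_AEB : T_AEB := by
  intro v v' a b c h
  refine ⟨⟨v, 1, one_mem _, Or.inl rfl⟩, ?_, ?_, ?_, geo_ef h, geo_vf h, geo_cf h, geo_cv h,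
    geo_cc h, geo_dis h⟩
  · rintro e ⟨g, hg, rfl⟩
    refine ⟨g v, ⟨g, hg, Or.inl rfl⟩, g v', ⟨g, hg, Or.inr rfl⟩,
      fun e => ne_of h (g.injective e), img_pair g v v'⟩
  · rintro f ⟨g, hg, rfl⟩
    constructor
    · rintro e ⟨e', ⟨k, hk, rfl⟩, rfl⟩
      exact ⟨g * k, mul_mem hg (ab_le hk), (img_mul g k _).symm⟩
    · exact ⟨_, _, base_fc _, rfl⟩
  · rintro x ⟨g, hg, rfl | rfl⟩
    · exact ⟨g '' {v, v'}, ⟨g, hg, rfl⟩, v, Or.inl rfl, rfl⟩
    · exact ⟨g '' {v, v'}, ⟨g, hg, rfl⟩, v', Or.inr rfl, rfl⟩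

theorem pf_AEC : T_AEC := by
  intro v v' a b c h g hg
  refine ⟨iso_G h hg, ?_, ?_, ?_⟩
  · intro x
    constructor
    · rintro ⟨k, hk, hx⟩
      refine ⟨g⁻¹ * k, mul_mem (inv_mem hg) hk, ?_⟩
      have e : x = g⁻¹ (g x) := (g.symm_apply_apply x).symm
      rcases hx with hx | hx
      · left
        rw [e, hx]
        rfl
      · right
        rw [e, hx]
        rfl
    · rintro ⟨k, hk, rfl | rfl⟩
      · exact ⟨g * k, mul_mem hg hk, Or.inl rfl⟩
      · exact ⟨g * k, mul_mem hg hk, Or.inr rfl⟩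
  · intro e
    constructor
    · rintro ⟨k, hk, hx⟩
      refine ⟨g⁻¹ * k, mul_mem (inv_mem hg) hk, ?_⟩
      rw [img_mul, ← hx, ← img_mul, inv_mul_cancel]
      simp
    · rintro ⟨k, hk, rfl⟩
      exact ⟨g * k, mul_mem hg hk, (img_mul g k _).symm⟩
  · intro f
    constructor
    · rintro ⟨k, hk, hx⟩
      refine ⟨g⁻¹ * k, mul_mem (inv_mem hg) hk, ?_⟩
      rw [← img2_img2, ← hx, img2_img2, inv_mul_cancel, img2_one]
    · rintro ⟨k, hk, rfl⟩
      exact ⟨g * k, mul_mem hg hk, img2_img2 g k _⟩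

theorem pf_AED : T_AED := by
  rintro v v' a b c h ⟨x, e, f⟩ ⟨hx, he, g, hg, hf⟩
  have hf' : f = (Set.image g) '' fc a b {v, v'} := hf
  have he' : e ∈ f := he
  have hx' : x ∈ e := hx
  rw [hf'] at he'
  obtain ⟨e1, ⟨k, hk, rfl⟩, rfl⟩ := he'
  refine ⟨g * k, mul_mem hg (ab_le hk), ?_⟩
  have e2 : g '' (k '' {v, v'}) = (g * k) '' {v, v'} := (img_mul g k _).symm
  have e3 : f = (Set.image (g * k : Equiv.Perm H3)) '' fc a b {v, v'} := by
    rw [hf', k_img g hk]
  rw [e2, img_pair] at hx'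
  rcases hx' with hx' | hx'
  · left
    show (x, g '' (k '' {v, v'}), f) = ((g * k) v, (g * k) '' {v, v'},
      (Set.image (g * k : Equiv.Perm H3)) '' fc a b {v, v'})
    rw [e2, ← e3, hx']
  · right
    show (x, g '' (k '' {v, v'}), f) = ((g * k) v', (g * k) '' {v, v'},
      (Set.image (g * k : Equiv.Perm H3)) '' fc a b {v, v'})
    rw [e2, ← e3, hx']

end

end Pool.Agent.H5.TOH
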