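import Pool.Agent.H5.TOH.AEB

/-!
# Row AEE of the board `toh_modules`: the sizes, class `{1, 2}`
-/

set_option autoImplicit false

namespace Pool.Agent.H5.TOH

open Pool.Agent.H57.CP Pool.Agent.H39.TO

/-! ### Dihedral groups -/

theorem dih_conj {Q : Type*} [Group Q] {s t : Q} (hs : s * s = 1) (ht : t * t = 1) (m : ℤ) :
    s * (s * t) ^ m = (s * t) ^ (-m) * s := by
  have hs' : s⁻¹ = s := inv_eq_of_mul_eq_one_left hs
  have ht' : t⁻¹ = t := inv_eq_of_mul_eq_one_left ht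
  have h1 : s * (s * t) * s⁻¹ = (s * t)⁻¹ := by
    rw [_root_.mul_inv_rev, hs', ht', ← mul_assoc, hs, one_mul]
  have h2 := conj_zpow (i := m) (a := s) (b := s * t)
  rw [h1] at h2
  rw [zpow_neg, ← inv_zpow, h2, inv_mul_cancel_right]

theorem dih_form {Q : Type*} [Group Q] {s t : Q} (hs : s * s = 1) (ht : t * t = 1) {k : Q}
    (hk : k ∈ Subgroup.closure {s, t}) : ∃ m : ℤ, k = (s * t) ^ m ∨ k = (s * t) ^ m * s := by
  have hs' : s⁻¹ = s := inv_eq_of_mul_eq_one_left hs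
  have ht' : t⁻¹ = t := inv_eq_of_mul_eq_one_left ht
  have hst : t = s * (s * t) := by rw [← mul_assoc, hs, one_mul]
  have stepS : ∀ y : Q, (∃ m : ℤ, y = (s * t) ^ m ∨ y = (s * t) ^ m * s) →
      ∃ m : ℤ, s * y = (s * t) ^ m ∨ s * y = (s * t) ^ m * s := by
    rintro y ⟨m, rfl | rfl⟩
    · exact ⟨-m, Or.inr (dih_conj hs ht m)⟩
    · refine ⟨-m, Or.inl ?_⟩
      rw [← mul_assoc, dih_conj hs ht m, mul_assoc, hs, mul_one]
  have stepT : ∀ y : Q, (∃ m : ℤ, y = (s * t) ^ m ∨ y = (s * t) ^ m * s) →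
      ∃ m : ℤ, t * y = (s * t) ^ m ∨ t * y = (s * t) ^ m * s := by
    rintro y ⟨m, hy⟩
    have h1 : t * y = s * ((s * t) * y) := by rw [← mul_assoc, ← hst]
    rw [h1]
    apply stepS
    refine ⟨1 + m, ?_⟩
    rcases hy with rfl | rfl
    · left
      rw [zpow_add, zpow_one]
    · right
      rw [zpow_add, zpow_one, mul_assoc (s * t)]
  induction hk using Subgroup.closure_induction_left with
  | one => exact ⟨0, Or.inl (zpow_zero _).symm⟩
  | mul_left x hx y _ ih =>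
    rcases hx with rfl | hx
    · exact stepS y ih
    · rw [Set.mem_singleton_iff] at hx
      subst hx
      exact stepT y ih
  | inv_mul_cancel x hx y _ ih =>
    rcases hx with rfl | hx
    · rw [hs']
      exact stepS y ih
    · rw [Set.mem_singleton_iff] at hx
      subst hx
      rw [ht']
      exact stepT y ih

theorem dih_form' {Q : Type*} [Group Q] {s t : Q} (hs : s * s = 1) (ht : t * t = 1) {k : Q}
    (hk : k ∈ Subgroup.closure {s, t}) : ∃ m : ℤ, k = (s * t) ^ m ∨ k = (s * t) ^ m * t := by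
  obtain ⟨m, h | h⟩ := dih_form hs ht hk
  · exact ⟨m, Or.inl h⟩
  · refine ⟨m + 1, Or.inr ?_⟩
    rw [h, zpow_add, zpow_one, mul_assoc, mul_assoc, ht, mul_one]

theorem dih_ne {Q : Type*} [Group Q] {s t : Q} (hs : s * s = 1) (ht : t * t = 1) (s1 : s ≠ 1)
    (t1 : t ≠ 1) (m : ℤ) : (s * t) ^ m ≠ s ∧ (s * t) ^ m ≠ t := by
  have hs' : s⁻¹ = s := inv_eq_of_mul_eq_one_left hs
  have ht' : t⁻¹ = t := inv_eq_of_mul_eq_one_left ht
  have par : (s * t) * (s * t) = 1 → (s * t) ^ m = 1 ∨ (s * t) ^ m = s * t := by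
    intro h
    rcases Int.even_or_odd m with ⟨j, hj⟩ | ⟨j, hj⟩
    · left
      rw [hj, ← two_mul, zpow_mul, zpow_two, h, one_zpow]
    · right
      rw [hj, zpow_add, zpow_mul, zpow_two, h, one_zpow, one_mul, zpow_one]
  have com : ∀ x : Q, (s * t) ^ m = x → (s * t) * x = x * (s * t) := by
    intro x hx
    rw [← hx]
    exact ((Commute.refl (s * t)).zpow_right m).eq
  constructor
  · intro h
    have h1 := com s h
    have h2 : (s * t) * (s * t) = 1 := by
      rw [← mul_assoc, h1, ← mul_assoc s s t, hs, one_mul, ht]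
    rcases par h2 with h3 | h3
    · exact s1 (h.symm.trans h3)
    · rw [h] at h3
      exact t1 (mul_left_cancel ((h3.symm.trans (mul_one s).symm)))
  · intro h
    have h1 := com t h
    have h2 : (s * t) * (s * t) = 1 := by
      rw [mul_assoc s t (s * t), ← h1, mul_assoc s t t, ht, mul_one, hs]
    rcases par h2 with h3 | h3
    · exact t1 (h.symm.trans h3)
    · rw [h] at h3
      exact s1 (mul_right_cancel ((h3.symm.trans (one_mul t).symm)))

theorem mul_gen (s t : Equiv.Perm H3) : s * t ∈ Subgroup.closure ({s, t} : Set (Equiv.Perm H3)) :=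
  mul_mem (Subgroup.subset_closure (Or.inl rfl)) (Subgroup.subset_closure (Or.inr rfl))

/-- the number of points in a free orbit of a cyclic group -/
theorem enc_orbit {α : Type*} (t : Equiv.Perm H3) (φ : Equiv.Perm H3 → α)
    (h : ∀ m n : ℤ, φ (t ^ m) = φ (t ^ n) → t ^ m = t ^ n) :
    {x | ∃ m : ℤ, x = φ (t ^ m)}.encard = oE t := by
  have h1 : {x | ∃ m : ℤ, x = φ (t ^ m)} = φ '' (Subgroup.zpowers t : Set (Equiv.Perm H3)) := by
    ext x
    constructor
    · rintro ⟨m, rfl⟩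
      exact ⟨t ^ m, ⟨m, rfl⟩, rfl⟩
    · rintro ⟨_, ⟨m, rfl⟩, rfl⟩
      exact ⟨m, rfl⟩
  rw [h1, Set.InjOn.encard_image]
  · unfold oE
    split_ifs with h0
    · rw [Set.encard_eq_top_iff, infinite_zpowers]
      exact orderOf_eq_zero_iff.1 h0
    · have hf : (Subgroup.zpowers t : Set (Equiv.Perm H3)).Finite :=
        finite_zpowers.2 (orderOf_pos_iff.1 (Nat.pos_of_ne_zero h0))
      rw [← hf.cast_ncard_eq]
      congr 1
      exact Nat.card_zpowers t
  · rintro _ ⟨m, rfl⟩ _ ⟨n, rfl⟩ e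
    exact h m n e

section

variable {v v' : H3} {a b c : Equiv.Perm H3}

theorem vts_img (g : Equiv.Perm H3) (f : Set (Set H3)) :
    vts ((Set.image g) '' f) = g '' vts f := by
  ext x
  constructor
  · rintro ⟨_, ⟨e, he, rfl⟩, y, hy, rfl⟩
    exact ⟨y, ⟨e, he, hy⟩, rfl⟩
  · rintro ⟨y, ⟨e, he, hy⟩, rfl⟩
    exact ⟨g '' e, ⟨e, he, rfl⟩, y, hy, rfl⟩

theorem free_v (h : AStr v v' a b c) (m : ℤ) (hm : ((a * b) ^ m) v = v) : (a * b) ^ m = 1 := by
  have h1 : (a * b) ^ m ∈ Subgroup.closure ({a, b} : Set (Equiv.Perm H3)) :=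
    zpow_mem (mul_gen _ _) m
  rcases h.ia1 _ h1 (h.st _ (ab_le h1) hm) with h2 | h2
  · exact h2
  · exact absurd h2 (dih_ne h.aa h.bb h.a1 h.b1 m).1

theorem free_v' (h : AStr v v' a b c) (m : ℤ) (hm : ((a * b) ^ m) v' = v') :
    (a * b) ^ m = 1 := by
  have h1 : (a * b) ^ m ∈ Subgroup.closure ({a, b} : Set (Equiv.Perm H3)) :=
    zpow_mem (mul_gen _ _) m
  rcases h.ib1 _ h1 (h.st' _ (ab_le h1) hm) with h2 | h2
  · exact h2
  · exact absurd h2 (dih_ne h.aa h.bb h.a1 h.b1 m).2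

theorem zdiff {t : Equiv.Perm H3} {x : H3} (h : ∀ m : ℤ, (t ^ m) x = x → t ^ m = 1) (m n : ℤ)
    (e : (t ^ m) x = (t ^ n) x) : t ^ m = t ^ n := by
  have h1 : t ^ (-n + m) = 1 := by
    apply h
    rw [zpow_add]
    show (t ^ (-n)) ((t ^ m) x) = x
    rw [e, zpow_neg]
    exact (t ^ n).symm_apply_apply x
  rw [zpow_add, zpow_neg] at h1
  exact (inv_mul_eq_one.1 h1).symm

theorem vts_fc (h : AStr v v' a b c) : vts (fc a b {v, v'}) =
    {x | ∃ m : ℤ, x = ((a * b) ^ m) v} ∪ {x | ∃ m : ℤ, x = ((a * b) ^ m) v'} := by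
  have hm : ∀ m : ℤ, (a * b) ^ m ∈ Subgroup.closure ({a, b} : Set (Equiv.Perm H3)) := fun m =>
    zpow_mem (mul_gen _ _) m
  ext x
  constructor
  · rintro ⟨e, ⟨k, hk, rfl⟩, hx⟩
    rw [img_pair] at hx
    rcases hx with hx | hx
    · left
      obtain ⟨m, rfl | rfl⟩ := dih_form h.aa h.bb hk
      · exact ⟨m, hx⟩
      · refine ⟨m, hx.trans ?_⟩
        show ((a * b) ^ m) (a v) = _
        rw [h.av]
    · rw [Set.mem_singleton_iff] at hx
      right
      obtain ⟨m, rfl | rfl⟩ := dih_form' h.aa h.bb hk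
      · exact ⟨m, hx⟩
      · refine ⟨m, hx.trans ?_⟩
        show ((a * b) ^ m) (b v') = _
        rw [h.bv']
  · rintro (⟨m, rfl⟩ | ⟨m, rfl⟩)
    · exact ⟨_, fmem (hm m) _, v, Or.inl rfl, rfl⟩
    · exact ⟨_, fmem (hm m) _, v', Or.inr rfl, rfl⟩

theorem enc_fc (h : AStr v v' a b c) : (vts (fc a b {v, v'})).encard = 2 * oE (a * b) := by
  rw [vts_fc h, Set.encard_union_eq]
  · rw [enc_orbit (a * b) (fun s => s v) (fun m n e => zdiff (free_v h) m n e),
      enc_orbit (a * b) (fun s => s v') (fun m n e => zdiff (free_v' h) m n e), two_mul]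
  · rw [Set.disjoint_left]
    rintro x ⟨m, rfl⟩ ⟨n, e⟩
    have hG : ∀ m : ℤ, (a * b) ^ m ∈ G3 a b c := fun m => zpow_mem (mul_mem aG bG) m
    refine h.ne _ (mul_mem (inv_mem (hG n)) (hG m)) ?_
    show ((a * b) ^ n)⁻¹ (((a * b) ^ m) v) = v'
    rw [e]
    exact ((a * b) ^ n).symm_apply_apply v'

theorem eds_img (K : Geo) (g : Equiv.Perm H3) (hg : Sy K g) (x : H3) :
    eds K (g x) = (Set.image g) '' eds K x := by
  ext e
  constructor
  · rintro ⟨he, hx⟩
    have e1 : g '' ((g⁻¹ : Equiv.Perm H3) '' e) = e := by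
      rw [← img_mul, mul_inv_cancel]
      simp
    refine ⟨(g⁻¹ : Equiv.Perm H3) '' e, ⟨?_, ?_⟩, e1⟩
    · rw [← hg.e, e1]
      exact he
    · refine ⟨g x, hx, ?_⟩
      exact g.symm_apply_apply x
  · rintro ⟨e', ⟨he, hx⟩, rfl⟩
    exact ⟨(hg.e e').2 he, x, hx, rfl⟩

theorem free_ev (h : AStr v v' a b c) (m : ℤ) (hm : ((a * c) ^ m) '' {v, v'} = {v, v'}) :
    (a * c) ^ m = 1 := by
  rcases stab h (zpow_mem (mul_mem aG cG) m) hm with h2 | h2
  · exact h2
  · exact absurd h2 (dih_ne h.aa h.cc h.a1 h.c1 m).2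

theorem free_ev' (h : AStr v v' a b c) (m : ℤ) (hm : ((b * c) ^ m) '' {v, v'} = {v, v'}) :
    (b * c) ^ m = 1 := by
  rcases stab h (zpow_mem (mul_mem bG cG) m) hm with h2 | h2
  · exact h2
  · exact absurd h2 (dih_ne h.bb h.cc h.b1 h.c1 m).2

theorem zdiff2 {t : Equiv.Perm H3} {x : Set H3} (h : ∀ m : ℤ, (t ^ m) '' x = x → t ^ m = 1)
    (m n : ℤ) (e : (t ^ m) '' x = (t ^ n) '' x) : t ^ m = t ^ n := by
  have h1 : t ^ (-n + m) = 1 := by
    apply h
    rw [zpow_add, img_mul, e, ← img_mul, ← zpow_add]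
    simp
  rw [zpow_add, zpow_neg] at h1
  exact (inv_mul_eq_one.1 h1).symm

theorem eds_v (h : AStr v v' a b c) : eds (KA v v' a b c) v =
    {x | ∃ m : ℤ, x = ((a * c) ^ m) '' {v, v'}} := by
  have hm : ∀ m : ℤ, (a * c) ^ m ∈ Subgroup.closure ({a, c} : Set (Equiv.Perm H3)) := fun m =>
    zpow_mem (mul_gen _ _) m
  ext x
  constructor
  · rintro ⟨⟨k, hk, rfl⟩, hx⟩
    obtain ⟨w, hw, hkw⟩ := edge_v h (one_mem _) hk hx
    rw [one_mul] at hkw
    subst hkw
    obtain ⟨m, rfl | rfl⟩ := dih_form' h.aa h.cc hw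
    · exact ⟨m, rfl⟩
    · refine ⟨m, ?_⟩
      rw [img_mul, c_img h]
  · rintro ⟨m, rfl⟩
    refine ⟨⟨_, ac_le (hm m), rfl⟩, v, Or.inl rfl, ?_⟩
    obtain ⟨s, hs⟩ : ∃ s, s = (a * c) ^ m := ⟨_, rfl⟩
    rw [← hs]
    have hs' : s ∈ Subgroup.closure ({a, c} : Set (Equiv.Perm H3)) := hs ▸ hm m
    clear hs
    induction hs' using Subgroup.closure_induction with
    | mem z hz =>
      rcases hz with rfl | rfl
      · exact h.av
      · exact h.cv
    | one => rfl
    | mul z z' _ _ h1 h2 =>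
      show z (z' v) = v
      rw [h2, h1]
    | inv z _ h1 =>
      show z.symm v = v
      rw [Equiv.symm_apply_eq, h1]

theorem eds_v' (h : AStr v v' a b c) : eds (KA v v' a b c) v' =
    {x | ∃ m : ℤ, x = ((b * c) ^ m) '' {v, v'}} := by
  have hm : ∀ m : ℤ, (b * c) ^ m ∈ Subgroup.closure ({b, c} : Set (Equiv.Perm H3)) := fun m =>
    zpow_mem (mul_gen _ _) m
  ext x
  constructor
  · rintro ⟨⟨k, hk, rfl⟩, hx⟩
    obtain ⟨w, hw, hkw⟩ := edge_v' h (one_mem _) hk hx
    rw [one_mul] at hkw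
    subst hkw
    obtain ⟨m, rfl | rfl⟩ := dih_form' h.bb h.cc hw
    · exact ⟨m, rfl⟩
    · refine ⟨m, ?_⟩
      rw [img_mul, c_img h]
  · rintro ⟨m, rfl⟩
    refine ⟨⟨_, bc_le (hm m), rfl⟩, v', Or.inr rfl, ?_⟩
    obtain ⟨s, hs⟩ : ∃ s, s = (b * c) ^ m := ⟨_, rfl⟩
    rw [← hs]
    have hs' : s ∈ Subgroup.closure ({b, c} : Set (Equiv.Perm H3)) := hs ▸ hm m
    clear hs
    induction hs' using Subgroup.closure_induction with
    | mem z hz =>
      rcases hz with rfl | rfl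
      · exact h.bv'
      · exact h.cv'
    | one => rfl
    | mul z z' _ _ h1 h2 =>
      show z (z' v') = v'
      rw [h2, h1]
    | inv z _ h1 =>
      show z.symm v' = v'
      rw [Equiv.symm_apply_eq, h1]

theorem deg_v (h : AStr v v' a b c) {g : Equiv.Perm H3} (hg : g ∈ G3 a b c) :
    (eds (KA v v' a b c) (g v)).encard = oE (a * c) := by
  rw [eds_img _ g (pf_AEC v v' a b c h g hg), (img1_inj g).encard_image, eds_v h]
  exact enc_orbit (a * c) (fun s => s '' {v, v'}) (fun m n e => zdiff2 (free_ev h) m n e)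

theorem deg_v' (h : AStr v v' a b c) {g : Equiv.Perm H3} (hg : g ∈ G3 a b c) :
    (eds (KA v v' a b c) (g v')).encard = oE (b * c) := by
  rw [eds_img _ g (pf_AEC v v' a b c h g hg), (img1_inj g).encard_image, eds_v' h]
  exact enc_orbit (b * c) (fun s => s '' {v, v'}) (fun m n e => zdiff2 (free_ev' h) m n e)

theorem pf_AEE : T_AEE := by
  intro v v' a b c h
  constructor
  · ext n
    constructor
    · rintro ⟨f, ⟨g, hg, rfl⟩, hn⟩
      rw [vts_img, g.injective.encard_image, enc_fc h] at hn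
      exact hn.symm
    · rintro rfl
      exact ⟨fc a b {v, v'}, ⟨1, one_mem _, (img2_one _).symm⟩, enc_fc h⟩
  · ext n
    constructor
    · rintro ⟨x, ⟨g, hg, rfl | rfl⟩, hn⟩
      · rw [deg_v h hg] at hn
        exact Or.inl hn.symm
      · rw [deg_v' h hg] at hn
        exact Or.inr hn.symm
    · rintro (rfl | rfl)
      · exact ⟨v, ⟨1, one_mem _, Or.inl rfl⟩, deg_v h (one_mem _)⟩
      · exact ⟨v', ⟨1, one_mem _, Or.inr rfl⟩, deg_v' h (one_mem _)⟩

/-- a symmetry preserves the vertex degrees -/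
theorem deg_sy (K : Geo) (g : Equiv.Perm H3) (hg : Sy K g) (x : H3) :
    (eds K (g x)).encard = (eds K x).encard := by
  rw [eds_img K g hg, (img1_inj g).encard_image]

theorem pf_AEF : T_AEF := by
  intro v v' a b c h hne
  constructor
  · refine ⟨(v, {v, v'}, fc a b {v, v'}), (v', {v, v'}, fc a b {v, v'}),
      ⟨Or.inl rfl, base_fc _, 1, one_mem _, (img2_one _).symm⟩,
      ⟨Or.inr rfl, base_fc _, 1, one_mem _, (img2_one _).symm⟩, ?_⟩
    rintro ⟨g, hg, hact⟩
    have h1 : g v = v' := congrArg (fun t : Fg => t.1) hact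
    have h2 : g '' {v, v'} = {v, v'} := congrArg (fun t : Fg => t.2.1) hact
    have h3 : (Set.image g) '' fc a b {v, v'} = fc a b {v, v'} :=
      congrArg (fun t : Fg => t.2.2) hact
    have h4 : g v' = v := by
      have : g v' ∈ ({v, v'} : Set H3) := by
        rw [← h2]
        exact ⟨v', Or.inr rfl, rfl⟩
      rcases this with h5 | h5
      · exact h5
      · rw [Set.mem_singleton_iff] at h5
        exact absurd (g.injective (h1.trans h5.symm)) (ne_of h)
    rcases hne with hne | hne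
    · apply hne
      have e1 := deg_v h (one_mem (G3 a b c))
      have e2 := deg_v' h (one_mem (G3 a b c))
      have e3 := deg_sy _ g hg v
      rw [h1] at e3
      have e1' : (eds (KA v v' a b c) v).encard = oE (a * c) := e1
      have e2' : (eds (KA v v' a b c) v').encard = oE (b * c) := e2
      rw [← e1', ← e2', e3]
    · apply hne
      have hm : ({v, a v'} : Set H3) ∈ fc a b {v, v'} :=
        ⟨a, Subgroup.subset_closure (Or.inl rfl), (a_img h).symm⟩
      have hm2 : g '' {v, a v'} ∈ fc a b {v, v'} := by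
        rw [← h3]
        exact ⟨_, hm, rfl⟩
      rw [img_pair, h1] at hm2
      have hm3 : ({v', g (a v')} : Set H3) ∈ {e | e ∈ fc a b {v, v'} ∧ v' ∈ e} :=
        ⟨hm2, Or.inl rfl⟩
      rw [fc_v' h] at hm3
      have hg1 : g (a v') = b v := by
        rcases hm3 with h5 | h5
        · exfalso
          rw [Set.pair_comm v v'] at h5
          have h6 : g (a v') ≠ v' := fun e => ne_inv h aG (g.injective (e.trans h1.symm))
          have h7 := pair_right h5 h6
          rw [← h4] at h7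
          exact av'_ne h (g.injective h7)
        · rw [Set.mem_singleton_iff, Set.pair_comm (b v) v'] at h5
          exact pair_right h5 fun e => ne_inv h aG (g.injective (e.trans h1.symm))
      rw [← hg.iso v' (a v'), h4, hg1]
  · intro Φ Ψ Θ h1 h2 h3
    obtain ⟨g1, m1, e1⟩ := pf_AED v v' a b c h Φ h1
    obtain ⟨g2, m2, e2⟩ := pf_AED v v' a b c h Ψ h2
    obtain ⟨g3, m3, e3⟩ := pf_AED v v' a b c h Θ h3
    have act_act : ∀ (g k : Equiv.Perm H3) (Φ : Fg), act g (act k Φ) = act (g * k) Φ := by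
      intro g k Φ
      show (g (k Φ.1), g '' (k '' Φ.2.1), (Set.image g) '' ((Set.image k) '' Φ.2.2)) =
        ((g * k) Φ.1, (g * k) '' Φ.2.1, (Set.image (g * k : Equiv.Perm H3)) '' Φ.2.2)
      rw [← img_mul, img2_img2]
      rfl
    have key : ∀ (g k : Equiv.Perm H3) (Φ : Fg), g ∈ G3 a b c → k ∈ G3 a b c →
        Eqv (KA v v' a b c) (act g Φ) (act k Φ) := by
      intro g k Φ hg hk
      refine ⟨k * g⁻¹, pf_AEC v v' a b c h _ (mul_mem hk (inv_mem hg)), ?_⟩
      rw [act_act, inv_mul_cancel_right]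
    rcases e1 with rfl | rfl <;> rcases e2 with rfl | rfl <;> rcases e3 with rfl | rfl
    · exact Or.inl (key _ _ _ m1 m2)
    · exact Or.inl (key _ _ _ m1 m2)
    · exact Or.inr (Or.inr (key _ _ _ m1 m3))
    · exact Or.inr (Or.inl (key _ _ _ m2 m3))
    · exact Or.inr (Or.inl (key _ _ _ m2 m3))
    · exact Or.inr (Or.inr (key _ _ _ m1 m3))
    · exact Or.inl (key _ _ _ m1 m2)
    · exact Or.inl (key _ _ _ m1 m2)

end

end Pool.Agent.H5.TOH
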