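import Pool.Agent.H5.TOH.AEB

/-!
# Row BED of the board `toh_modules`: at most two orbits, class `{0, 1}`
-/

set_option autoImplicit false

namespace Pool.Agent.H5.TOH

open Pool.Agent.H57.CP Pool.Agent.H39.TO

theorem bed_one {v : H3} {r a : Equiv.Perm H3} (hr : r * r = 1) {x : H3} {e : Set H3}
    {f : Set (Set H3)} (hx : x ∈ e) (he : e ∈ f) {g : Equiv.Perm H3}
    {G : Subgroup (Equiv.Perm H3)} (hG : Subgroup.closure {r, a} ≤ G) (hg : g ∈ G)
    (hf : f = (Set.image g) '' fc r a {v, r v}) :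
    ∃ h ∈ G, (x, e, f) = act h (v, {v, r v}, fc r a {v, r v}) := by
  have rr : r (r v) = v := by
    show (r * r) v = v
    rw [hr]
    rfl
  have r_img : r '' {v, r v} = {v, r v} := by
    rw [img_pair, rr, Set.pair_comm]
  rw [hf] at he
  obtain ⟨e1, ⟨k, hk, rfl⟩, he'⟩ := he
  have e2 : e = (g * k) '' {v, r v} := by
    rw [img_mul]
    exact he'.symm
  have key : ∀ h : Equiv.Perm H3, h ∈ Subgroup.closure ({r, a} : Set (Equiv.Perm H3)) →
      x = (g * h) v → e = (g * h) '' {v, r v} →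
      ∃ h ∈ G, (x, e, f) = act h (v, {v, r v}, fc r a {v, r v}) := by
    intro h hh h1 h2
    refine ⟨g * h, mul_mem hg (hG hh), ?_⟩
    show (x, e, f) = ((g * h) v, (g * h) '' {v, r v},
      (Set.image (g * h : Equiv.Perm H3)) '' fc r a {v, r v})
    rw [k_img g hh, ← hf, ← h1, ← h2]
  have hx' := hx
  rw [e2, img_pair] at hx'
  rcases hx' with hx' | hx'
  · exact key k hk hx' e2
  · rw [Set.mem_singleton_iff] at hx'
    refine key (k * r) (mul_mem hk (Subgroup.subset_closure (Or.inl rfl))) ?_ ?_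
    · rw [← mul_assoc]
      exact hx'
    · rw [← mul_assoc, img_mul, r_img]
      exact e2

theorem pf_BED : T_BED := by
  rintro v r a b h ⟨x, e, f⟩ ⟨hx, he, g, hg, hf⟩
  rcases hf with hf | hf
  · have hG : Subgroup.closure {r, a} ≤ G3 r a b := ab_le
    obtain ⟨k, hk, e1⟩ := bed_one h.rr hx he hG hg hf
    exact ⟨k, hk, Or.inl e1⟩
  · have hG : Subgroup.closure {r, b} ≤ G3 r a b := ac_le
    obtain ⟨k, hk, e1⟩ := bed_one h.rr hx he hG hg hf
    exact ⟨k, hk, Or.inr e1⟩

end Pool.Agent.H5.TOH
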